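import Pool.Agent.Helper442_AD.Gen
import Pool.Agent.Helper442_AD.Lift

/-!
# The approximation degree of a finite flat deformation over `k[[t]]`

Over an infinite field, every finite algebra has a basis all of whose structure constants are nonzero
(for each triple of indices this is a nonempty Zariski open condition on the basis). A lift of such a
basis to a finite flat `k[[t]]`-algebra has only units as structure constants. So the approximation
degree (the minimum over all `k[[t]]`-bases of the largest valuation of a nonzero structure constant)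
of every abstract smoothing is zero.
-/

set_option autoImplicit false

open Module PowerSeries
open scoped LaurentSeries TensorProduct

namespace Pool.Agent.Results.MP_a8f336_ag.ApproxDegree

universe u

section Definitions

variable (k : Type u) [Field k]

/-- `ad(R; e)`: the maximum of the valuations of the nonzero structure constants of the basis `e`
(`c_ij^l` is `e.repr (e i * e j) l`; a structure constant `0` contributes the value `0`). -/
noncomputable def adBasis {ι : Type} [Fintype ι] {R : Type u} [CommRing R] [Algebra k⟦X⟧ R]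
    (e : Basis ι k⟦X⟧ R) : ℕ :=
  Finset.univ.sup fun p : ι × ι × ι => (PowerSeries.order (e.repr (e p.1 * e p.2.1) p.2.2)).toNat

/-- The approximation degree of `R`: the minimum of `ad(R; e)` over all `k[[t]]`-bases `e`. -/
noncomputable def approxDegree (R : Type u) [CommRing R] [Algebra k⟦X⟧ R] : ℕ :=
  sInf {n | ∃ (d : ℕ) (e : Basis (Fin d) k⟦X⟧ R), adBasis k e = n}

/-- `R` is a finite flat `k[[t]]`-algebra with special fibre `R / t R` isomorphic to `A`. -/
structure IsFamily (A : Type u) [CommRing A] [Algebra k A] (R : Type u) [CommRing R]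
    [Algebra k⟦X⟧ R] [Algebra k R] [IsScalarTower k k⟦X⟧ R] : Prop where
  finite : Module.Finite k⟦X⟧ R
  flat : Module.Flat k⟦X⟧ R
  special : Nonempty ((R ⧸ Ideal.span {algebraMap k⟦X⟧ R X}) ≃ₐ[k] A)

/-- `R` is an abstract smoothing of `A`: its generic fibre is geometrically reduced. -/
structure IsSmoothing (A : Type u) [CommRing A] [Algebra k A] (R : Type u) [CommRing R]
    [Algebra k⟦X⟧ R] [Algebra k R] [IsScalarTower k k⟦X⟧ R] : Prop extends IsFamily k A R where
  reduced : IsReduced (AlgebraicClosure k⸨X⸩ ⊗[k⸨X⸩] (k⸨X⸩ ⊗[k⟦X⟧] R))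

/-- `R` is a completely split abstract smoothing of `A`: its generic fibre is a product of
`dim A` copies of `k((t))`. -/
structure IsSplitSmoothing (A : Type u) [CommRing A] [Algebra k A] (R : Type u) [CommRing R]
    [Algebra k⟦X⟧ R] [Algebra k R] [IsScalarTower k k⟦X⟧ R] : Prop extends IsSmoothing k A R where
  split : Nonempty ((k⸨X⸩ ⊗[k⟦X⟧] R) ≃ₐ[k⸨X⸩] (Fin (finrank k A) → k⸨X⸩))

end Definitions

section Proof

variable {k : Type u} [Field k] {A : Type u} [CommRing A] [Algebra k A] {R : Type u} [CommRing R]
  [Algebra k⟦X⟧ R] [Algebra k R] [IsScalarTower k k⟦X⟧ R]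

theorem IsFamily.spec (h : IsFamily k A R) : ∃ p : R →+* A, Helper442_AD.IsSpec (k := k) p := by
  obtain ⟨φ⟩ := h.special
  refine ⟨(φ : (R ⧸ Ideal.span {algebraMap k⟦X⟧ R X}) →+* A).comp (Ideal.Quotient.mk _), ?_, ?_, ?_⟩
  · exact φ.surjective.comp Ideal.Quotient.mk_surjective
  · intro f
    obtain ⟨g, hg⟩ : ∃ g : k⟦X⟧, f = C (constantCoeff f) + X * g := by
      have : (X : k⟦X⟧) ∣ f - C (constantCoeff f) := by
        rw [X_dvd_iff, map_sub, constantCoeff_C, sub_self]
      obtain ⟨g, hg⟩ := this
      exact ⟨g, by rw [← hg]; ring⟩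
    have h1 : Ideal.Quotient.mk (Ideal.span {algebraMap k⟦X⟧ R X}) (algebraMap k⟦X⟧ R f)
        = algebraMap k (R ⧸ Ideal.span {algebraMap k⟦X⟧ R X}) (constantCoeff f) := by
      conv_lhs => rw [hg]
      rw [map_add, map_add, map_mul, map_mul]
      have h2 : Ideal.Quotient.mk (Ideal.span {algebraMap k⟦X⟧ R X}) (algebraMap k⟦X⟧ R X) = 0 :=
        Ideal.Quotient.eq_zero_iff_mem.2 (Ideal.mem_span_singleton_self _)
      rw [h2, zero_mul, add_zero]
      have h3 : (C (constantCoeff f) : k⟦X⟧) = algebraMap k k⟦X⟧ (constantCoeff f) := rfl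
      rw [h3, ← IsScalarTower.algebraMap_apply k k⟦X⟧ R]
      rfl
    rw [RingHom.comp_apply, h1]
    exact φ.commutes _
  · intro a ha
    rw [RingHom.comp_apply] at ha
    have h1 : Ideal.Quotient.mk (Ideal.span {algebraMap k⟦X⟧ R X}) a = 0 := by
      apply φ.injective
      rw [map_zero]
      exact ha
    rw [Ideal.Quotient.eq_zero_iff_mem, Ideal.mem_span_singleton] at h1
    exact h1

theorem IsFamily.exists_units [Infinite k] [Module.Finite k A] (h : IsFamily k A R) :
    ∃ e : Basis (Fin (finrank k A)) k⟦X⟧ R, ∀ i j l, IsUnit (e.repr (e i * e j) l) := by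
  obtain ⟨p, hp⟩ := h.spec
  have := h.finite
  have := h.flat
  obtain ⟨v, hv⟩ := Helper442_AD.exists_generic (k := k) (A := A)
  obtain ⟨e, he⟩ := Helper442_AD.lift_basis hp v
  refine ⟨e, fun i j l => ?_⟩
  rw [PowerSeries.isUnit_iff_constantCoeff, Helper442_AD.lift_const hp v e he]
  exact isUnit_iff_ne_zero.2 (hv i j l)

theorem IsFamily.approxDegree_eq [Infinite k] [Module.Finite k A] (h : IsFamily k A R) :
    approxDegree k R = 0 := by
  obtain ⟨e, he⟩ := h.exists_units
  have h1 : adBasis k e = 0 := by
    rw [adBasis, ← Nat.bot_eq_zero, Finset.sup_eq_bot_iff]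
    intro p _
    have h2 : PowerSeries.order (e.repr (e p.1 * e p.2.1) p.2.2) = 0 :=
      PowerSeries.order_zero_of_unit (he _ _ _)
    rw [h2]
    rfl
  apply Nat.eq_zero_of_le_zero
  exact Nat.sInf_le ⟨_, e, h1⟩

end Proof

/-- Let `k` be algebraically closed and `A` a finite `k`-algebra of degree `d`. Every finite flat
`k[[t]]`-algebra `R` with special fibre `A` has a `k[[t]]`-basis all of whose structure constants are
units, so its approximation degree is `0`; in particular (Q1) if `A` has a completely split abstract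
smoothing then it has one of approximation degree at most `d`, and (Q2) the constant polynomial `0`
is a bound for the approximation degree for all `A`. -/
theorem result (k : Type u) [Field k] [IsAlgClosed k] :
    (∀ (A : Type u) [CommRing A] [Algebra k A] [Module.Finite k A] (R : Type u) [CommRing R]
      [Algebra k⟦X⟧ R] [Algebra k R] [IsScalarTower k k⟦X⟧ R], IsFamily k A R →
      (∃ e : Basis (Fin (finrank k A)) k⟦X⟧ R, ∀ i j l, IsUnit (e.repr (e i * e j) l)) ∧
        approxDegree k R = 0) ∧
    (∀ (A : Type u) [CommRing A] [Algebra k A] [Module.Finite k A] (R : Type u) [CommRing R]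
      [Algebra k⟦X⟧ R] [Algebra k R] [IsScalarTower k k⟦X⟧ R], IsSplitSmoothing k A R →
      approxDegree k R ≤ finrank k A) ∧
    (∃ P : Polynomial ℕ, ∀ (A : Type u) [CommRing A] [Algebra k A] [Module.Finite k A] (R : Type u)
      [CommRing R] [Algebra k⟦X⟧ R] [Algebra k R] [IsScalarTower k k⟦X⟧ R],
      IsSplitSmoothing k A R → approxDegree k R ≤ P.eval (finrank k A)) := by
  refine ⟨?_, ?_, 0, ?_⟩
  · intro A _ _ _ R _ _ _ _ h
    exact ⟨h.exists_units, h.approxDegree_eq⟩
  · intro A _ _ _ R _ _ _ _ h
    rw [h.approxDegree_eq]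
    exact Nat.zero_le _
  · intro A _ _ _ R _ _ _ _ h
    rw [h.approxDegree_eq]
    exact Nat.zero_le _

end Pool.Agent.Results.MP_a8f336_ag.ApproxDegree
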